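import Pool.Agent.H93.PG.Targets

/-! # Board pgs_modules, row LVB -/

set_option autoImplicit false

open MeasureTheory Filter Topology Finset Pool.Agent.H93.PF Pool.Agent.H93.PG

namespace Pool.Agent.H63.PG

theorem lvb_anti {Y : Type} [MeasurableSpace Y] (T : Y ≃ᵐ Y) (L : ℕ) (D : ℕ → Set Y) (y : Y)
    (j k : ℕ) (h : j ≤ k) (hy : y ∈ Bk T L D k) : y ∈ Bk T L D j := by
  induction k with
  | zero =>
    have : j = 0 := Nat.le_zero.mp h
    rw [this]
    exact hy
  | succ k ih =>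
    rcases Nat.lt_or_ge j (k + 1) with h1 | h1
    · exact ih (Nat.lt_succ_iff.mp h1) hy.1
    · have : j = k + 1 := le_antisymm h h1
      rw [this]
      exact hy

theorem pf_LVB : T_LVB := by
  intro Y _ T L D y k h1 h2
  unfold lv
  have hk : k ∈ {k | y ∉ Bk T L D (k + 1)} := h2
  refine le_antisymm (Nat.sInf_le hk) ?_
  by_contra h
  rw [not_le] at h
  have h3 : sInf {k | y ∉ Bk T L D (k + 1)} ∈ {k | y ∉ Bk T L D (k + 1)} := Nat.sInf_mem ⟨k, hk⟩
  exact h3 (lvb_anti T L D y _ k h h1)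

end Pool.Agent.H63.PG
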