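import Pool.Agent.H93.PG.Targets

/-! # Board pgs_modules, row MM2 -/

set_option autoImplicit false

open MeasureTheory Filter Topology Finset Pool.Agent.H93.PF Pool.Agent.H93.PG

namespace Pool.Agent.H63.PG

theorem mm2_le (β : ℝ) (plus : Bool) (q c : ℕ) (h : (c : ℝ) ≤ β) : c * q ≤ mm β plus q := by
  have h1 : ((c * q : ℕ) : ℝ) ≤ β * q := by
    push_cast
    exact mul_le_mul_of_nonneg_right h (Nat.cast_nonneg q)
  unfold mm
  split
  · exact (Nat.le_floor h1).trans (Nat.le_succ _)
  · exact Nat.cast_le.mp (h1.trans (Nat.le_ceil _))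

theorem mm2_lt (β : ℝ) (plus : Bool) (q c : ℕ) (hq : 0 < q)
    (h : (c : ℝ) < β ∨ ((c : ℝ) ≤ β ∧ plus = true)) : c * q + 1 ≤ mm β plus q := by
  have hq' : (0 : ℝ) < q := by exact_mod_cast hq
  have hle : (c : ℝ) ≤ β := by
    rcases h with h | h
    · exact h.le
    · exact h.1
  have h1 : ((c * q : ℕ) : ℝ) ≤ β * q := by
    push_cast
    exact mul_le_mul_of_nonneg_right hle hq'.le
  unfold mm
  split
  · exact Nat.succ_le_succ (Nat.le_floor h1)
  · next hp =>
    rcases h with h | h
    · refine Nat.lt_ceil.mpr ?_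
      push_cast
      exact mul_lt_mul_of_pos_right h hq'
    · exact absurd h.2 hp

theorem pf_MM2 : T_MM2 := by
  intro β plus q hq
  refine ⟨fun h => mm2_le β plus q 2 (by exact_mod_cast h), fun h => ?_, fun h => ?_⟩
  · exact mm2_lt β plus q 2 hq (by exact_mod_cast h)
  · exact mm2_lt β plus q 3 hq (by exact_mod_cast h)

end Pool.Agent.H63.PG
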