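import Pool.Agent.H93.PG.Targets

/-! # Board pgs_modules, row TMB: basic facts on the Thue-Morse sequence -/

set_option autoImplicit false

open MeasureTheory Filter Topology Finset Pool.Agent.H93.PF Pool.Agent.H93.PG

namespace Pool.Agent.H63.PG

theorem tmf_zero (k : ℕ) : tmf k 0 = false := by
  induction k with
  | zero => rfl
  | succ k ih =>
    change xor (0 % 2 == 1) (tmf k (0 / 2)) = false
    rw [Nat.zero_div, ih]
    rfl

theorem tmf_eq (n : ℕ) : ∀ k, n ≤ k → tmf k n = tm n := by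
  induction n using Nat.strong_induction_on with
  | _ n ih =>
    intro k hk
    rcases Nat.eq_zero_or_pos n with h | h
    · rw [h, tmf_zero]
      rfl
    · obtain ⟨k', rfl⟩ : ∃ k', k = k' + 1 := ⟨k - 1, by omega⟩
      obtain ⟨n', rfl⟩ : ∃ n', n = n' + 1 := ⟨n - 1, by omega⟩
      change xor ((n' + 1) % 2 == 1) (tmf k' ((n' + 1) / 2)) =
        xor ((n' + 1) % 2 == 1) (tmf n' ((n' + 1) / 2))
      rw [ih ((n' + 1) / 2) (by omega) k' (by omega), ih ((n' + 1) / 2) (by omega) n' (by omega)]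

theorem tm_half (n : ℕ) : tm n = xor (n % 2 == 1) (tm (n / 2)) := by
  rw [← tmf_eq n (n + 1) (Nat.le_succ n)]
  change xor (n % 2 == 1) (tmf n (n / 2)) = _
  rw [tmf_eq (n / 2) n (Nat.div_le_self n 2)]

theorem tm_even (n : ℕ) : tm (2 * n) = tm n := by
  rw [tm_half (2 * n)]
  have h1 : 2 * n % 2 = 0 := by omega
  have h2 : 2 * n / 2 = n := by omega
  rw [h1, h2]
  simp

theorem tm_odd (n : ℕ) : tm (2 * n + 1) = !tm n := by
  rw [tm_half (2 * n + 1)]
  have h1 : (2 * n + 1) % 2 = 1 := by omega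
  have h2 : (2 * n + 1) / 2 = n := by omega
  rw [h1, h2]
  simp

theorem tm_add (e : ℕ) : ∀ c i, i < 2 ^ e → tm (2 ^ e * c + i) = xor (tm c) (tm i) := by
  induction e with
  | zero =>
    intro c i hi
    have : i = 0 := by simpa using hi
    rw [this]
    have h0 : tm 0 = false := rfl
    rw [h0]
    simp
  | succ e ih =>
    intro c i hi
    rw [pow_succ] at hi
    rcases Nat.even_or_odd' i with ⟨j, h | h⟩
    · have e1 : 2 ^ (e + 1) * c + i = 2 * (2 ^ e * c + j) := by rw [h, pow_succ]; ring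
      rw [e1, tm_even, ih c j (by omega), h, tm_even]
    · have e1 : 2 ^ (e + 1) * c + i = 2 * (2 ^ e * c + j) + 1 := by rw [h, pow_succ]; ring
      rw [e1, tm_odd, ih c j (by omega), h, tm_odd]
      cases tm c <;> cases tm j <;> rfl

theorem tm_rev (e : ℕ) : ∀ i, i < 2 ^ e → tm (2 ^ e - 1 - i) = xor (tm i) (e % 2 == 1) := by
  induction e with
  | zero =>
    intro i hi
    have : i = 0 := by simpa using hi
    rw [this]
    rfl
  | succ e ih =>
    intro i hi
    rw [pow_succ] at hi
    have hpar : ((e + 1) % 2 == 1) = !(e % 2 == 1) := by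
      rcases Nat.mod_two_eq_zero_or_one e with h | h
      · have : (e + 1) % 2 = 1 := by omega
        rw [h, this]
        rfl
      · have : (e + 1) % 2 = 0 := by omega
        rw [h, this]
        rfl
    rcases Nat.even_or_odd' i with ⟨j, h | h⟩
    · have e1 : 2 ^ (e + 1) - 1 - i = 2 * (2 ^ e - 1 - j) + 1 := by rw [h, pow_succ]; omega
      rw [e1, tm_odd, ih j (by omega), h, tm_even, hpar]
      cases tm j <;> cases (e % 2 == 1) <;> rfl
    · have e1 : 2 ^ (e + 1) - 1 - i = 2 * (2 ^ e - 1 - j) := by rw [h, pow_succ]; omega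
      rw [e1, tm_even, ih j (by omega), h, tm_odd, hpar]
      cases tm j <;> cases (e % 2 == 1) <;> rfl

theorem pf_TMB : T_TMB := ⟨rfl, tm_even, tm_odd, tm_add, tm_rev⟩

end Pool.Agent.H63.PG
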