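import Pool.Agent.H93.PG.Targets

/-! # Board pgs_modules, row TMC: number of the factors of the Thue-Morse sequence -/

set_option autoImplicit false

open MeasureTheory Filter Topology Finset Pool.Agent.H93.PF Pool.Agent.H93.PG

namespace Pool.Agent.H63.PG

theorem pf_TMC (hTMB : T_TMB) : T_TMC := by
  classical
  obtain ⟨-, -, -, hadd, -⟩ := hTMB
  intro k hk
  obtain ⟨e, he1, he2⟩ : ∃ e, k ≤ 2 ^ e ∧ 2 ^ e ≤ 2 * k := by
    refine ⟨Nat.clog 2 k, Nat.le_pow_clog (by norm_num) k, ?_⟩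
    rcases Nat.lt_or_ge 1 k with h | h
    · have h1 := Nat.pow_pred_clog_lt_self (b := 2) (by norm_num) h
      have h2 : 0 < Nat.clog 2 k := Nat.clog_pos (by norm_num) h
      obtain ⟨c, hc⟩ : ∃ c, Nat.clog 2 k = c + 1 := ⟨Nat.clog 2 k - 1, by omega⟩
      rw [hc] at h1 ⊢
      rw [Nat.pred_succ] at h1
      rw [pow_succ]
      omega
    · have : k = 1 := by omega
      rw [this]
      simp
  let Φ : Bool × Bool × Fin (2 ^ e) → (Fin k → Bool) := fun p j =>
    if (p.2.2 : ℕ) + j < 2 ^ e then xor p.1 (tm ((p.2.2 : ℕ) + j))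
    else xor p.2.1 (tm ((p.2.2 : ℕ) + j - 2 ^ e))
  have hpos : 0 < 2 ^ e := Nat.two_pow_pos e
  have hsub : (Set.range fun (i : ℕ) (j : Fin k) => tm (i + (j : ℕ))) ⊆
      ((univ.image Φ : Finset (Fin k → Bool)) : Set (Fin k → Bool)) := by
    rintro _ ⟨i, rfl⟩
    rw [Finset.mem_coe, Finset.mem_image]
    refine ⟨(tm (i / 2 ^ e), tm (i / 2 ^ e + 1), ⟨i % 2 ^ e, Nat.mod_lt _ hpos⟩),
      Finset.mem_univ _, ?_⟩
    funext j
    have hj := j.isLt
    have hi := Nat.div_add_mod i (2 ^ e)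
    have hm := Nat.mod_lt i hpos
    change (if i % 2 ^ e + (j : ℕ) < 2 ^ e then xor (tm (i / 2 ^ e)) (tm (i % 2 ^ e + j))
      else xor (tm (i / 2 ^ e + 1)) (tm (i % 2 ^ e + j - 2 ^ e))) = tm (i + j)
    split
    · next h =>
      rw [← hadd e _ _ h]
      congr 1
      omega
    · next h =>
      rw [← hadd e _ _ (by omega : i % 2 ^ e + (j : ℕ) - 2 ^ e < 2 ^ e)]
      congr 1
      rw [mul_add, mul_one]
      omega
  calc (Set.range fun (i : ℕ) (j : Fin k) => tm (i + (j : ℕ))).ncard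
      ≤ ((univ.image Φ : Finset (Fin k → Bool)) : Set (Fin k → Bool)).ncard :=
        Set.ncard_le_ncard hsub (Finset.finite_toSet _)
    _ = (univ.image Φ).card := Set.ncard_coe_finset _
    _ ≤ (univ : Finset (Bool × Bool × Fin (2 ^ e))).card := Finset.card_image_le
    _ = 2 * (2 * 2 ^ e) := by
        rw [Finset.card_univ, Fintype.card_prod, Fintype.card_prod, Fintype.card_bool,
          Fintype.card_fin]
    _ ≤ 8 * k := by omega

end Pool.Agent.H63.PG
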