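import Pool.Agent.H93.PG.Targets

/-! # Board pgs_modules, row TMO: the Thue-Morse sequence contains no overlaps -/

set_option autoImplicit false

open MeasureTheory Filter Topology Finset Pool.Agent.H93.PF Pool.Agent.H93.PG

namespace Pool.Agent.H63.PG

theorem pf_TMO (hTMB : T_TMB) : T_TMO := by
  obtain ⟨-, hev, hod, -, -⟩ := hTMB
  -- two consecutive terms at an even place
  have hE : ∀ n, n % 2 = 0 → tm (n + 1) ≠ tm n := by
    intro n hn h
    obtain ⟨k, rfl⟩ : ∃ k, n = 2 * k := ⟨n / 2, by omega⟩
    rw [hod, hev] at h
    cases hb : tm k <;> rw [hb] at h <;> exact absurd h (by decide)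
  -- three equal consecutive terms
  have h3 : ∀ k, tm (k + 1) = tm k → tm (k + 2) = tm (k + 1) → False := by
    intro k h1 h2
    rcases Nat.mod_two_eq_zero_or_one k with h | h
    · exact hE k h h1
    · exact hE (k + 1) (by omega) h2
  intro q
  induction q using Nat.strong_induction_on with
  | _ q ih =>
    intro i hq
    by_contra hcon
    push Not at hcon
    rcases Nat.even_or_odd' q with ⟨r, hr | hr⟩
    · -- even period
      rcases Nat.even_or_odd' i with ⟨l, hl | hl⟩
      · obtain ⟨j, hj1, hj2, hj3⟩ := ih r (by omega) l (by omega)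
        apply hj3
        have h := hcon (2 * j) (by omega) (by omega)
        rw [show 2 * j + q = 2 * (j + r) by omega, hev, hev] at h
        exact h
      · obtain ⟨j, hj1, hj2, hj3⟩ := ih r (by omega) l (by omega)
        apply hj3
        have h := hcon (2 * j + 1) (by omega) (by omega)
        rw [show 2 * j + 1 + q = 2 * (j + r) + 1 by omega, hod, hod] at h
        cases h1 : tm (j + r) <;> cases h2 : tm j <;> rw [h1, h2] at h <;>
          first | rfl | exact absurd h (by decide)
    · -- odd period
      by_cases h1 : q = 1
      · subst h1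
        exact h3 i (hcon i le_rfl (by omega)) (hcon (i + 1) (by omega) (by omega))
      by_cases hq3 : q = 3
      · subst hq3
        have key : ∀ n, i ≤ n → n ≤ i + 2 → tm (n + 1) ≠ tm n := by
          intro n hn1 hn2
          rcases Nat.mod_two_eq_zero_or_one n with h | h
          · exact hE n h
          · have e1 := hE (n + 3) (by omega)
            have e2 := hcon n hn1 (by omega)
            have e3 := hcon (n + 1) (by omega) (by omega)
            rw [show n + 3 + 1 = n + 1 + 3 by omega, e2, e3] at e1
            exact e1
        have a0 := key i le_rfl (by omega)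
        have a1 := key (i + 1) (by omega) (by omega)
        have a2 := key (i + 2) (by omega) (by omega)
        have a3 := hcon i le_rfl (by omega)
        cases b0 : tm i <;> cases b1 : tm (i + 1) <;> cases b2 : tm (i + 2) <;>
          cases b3 : tm (i + 3) <;> simp_all
      · have hq5 : 5 ≤ q := by omega
        -- an odd number `2k+1` with `i ≤ 2k+1`, `2k+3 ≤ i+3`
        obtain ⟨k, hk1, hk2⟩ : ∃ k, i ≤ 2 * k + 1 ∧ 2 * k + 3 ≤ i + 3 := ⟨i / 2, by omega, by omega⟩
        have key : ∀ n, n % 2 = 1 → i ≤ n → n ≤ i + 3 → tm (n + 1) ≠ tm n := by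
          intro n hn hn1 hn2 hn3
          have e1 := hE (n + q) (by omega)
          have e2 := hcon n hn1 (by omega)
          have e3 := hcon (n + 1) (by omega) (by omega)
          rw [show n + q + 1 = n + 1 + q by omega, e2, e3] at e1
          exact e1 hn3
        have c1 := key (2 * k + 1) (by omega) hk1 (by omega)
        have c2 := key (2 * (k + 1) + 1) (by omega) (by omega) (by omega)
        rw [show 2 * k + 1 + 1 = 2 * (k + 1) by omega, hev, hod] at c1
        rw [show 2 * (k + 1) + 1 + 1 = 2 * (k + 2) by omega, hev, hod] at c2
        refine h3 k ?_ ?_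
        · cases b0 : tm k <;> cases b1 : tm (k + 1) <;> simp_all
        · cases b0 : tm (k + 1) <;> cases b1 : tm (k + 2) <;> simp_all

end Pool.Agent.H63.PG
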