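import Pool.Agent.H93.PG.Targets

/-! # Board pgs_modules, row VTM: the ternary sequence contains no squares -/

set_option autoImplicit false

open MeasureTheory Filter Topology Finset Pool.Agent.H93.PF Pool.Agent.H93.PG

namespace Pool.Agent.H63.PG

theorem vt_int (n : ℕ) : (vt n : ℤ) = ((tm (n + 1)).toNat : ℤ) + 1 - ((tm n).toNat : ℤ) := by
  unfold vt
  cases tm (n + 1) <;> cases tm n <;> rfl

theorem pf_VTM (hTMB : T_TMB) (hTMO : T_TMO) : T_VTM := by
  intro q i hq
  by_contra hcon
  push Not at hcon
  -- the differences are constant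
  have key : ∀ k, k ≤ q → ((tm (i + k + q)).toNat : ℤ) - ((tm (i + k)).toNat : ℤ) =
      ((tm (i + q)).toNat : ℤ) - ((tm i).toNat : ℤ) := by
    intro k
    induction k with
    | zero => intro _; rfl
    | succ k ih =>
      intro hk
      have h1 := ih (by omega)
      have h2 := hcon (i + k) (by omega) (by omega)
      have h3 : (vt (i + k + q) : ℤ) = (vt (i + k) : ℤ) := by rw [h2]
      rw [vt_int, vt_int] at h3
      rw [show i + (k + 1) + q = i + k + q + 1 by omega, show i + (k + 1) = i + k + 1 by omega]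
      linarith
  have hb : ∀ b : Bool, 0 ≤ (b.toNat : ℤ) ∧ (b.toNat : ℤ) ≤ 1 := by
    intro b
    cases b <;> simp
  have hq1 := key q le_rfl
  have b1 := hb (tm (i + q + q))
  have b2 := hb (tm i)
  have hs : ((tm (i + q)).toNat : ℤ) - ((tm i).toNat : ℤ) = 0 := by omega
  obtain ⟨j, hj1, hj2, hj3⟩ := hTMO q i hq
  apply hj3
  have h4 := key (j - i) (by omega)
  rw [show i + (j - i) = j by omega, hs] at h4
  have hinj : ∀ b c : Bool, (b.toNat : ℤ) - (c.toNat : ℤ) = 0 → b = c := by
    intro b c
    cases b <;> cases c <;> simp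
  exact hinj _ _ h4

end Pool.Agent.H63.PG
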